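import Mathlib

/-! Two criteria for the topological entropy: linear growth of the number of orbit segments, and a
horseshoe for the second iterate. -/

namespace Pool.Agent.X194.LG

open Set Topology Filter Dynamics Uniformity

/-- zero entropy when orbit segments of length `n` can be coloured with `C (n+1)` colours such that
points with the same colour stay close -/
theorem entropy_zero {X : Type} [PseudoMetricSpace X] [Nonempty X] (T : X → X)
    (h : ∀ ε > 0, ∃ C : ℕ, ∀ n : ℕ, ∃ (ι : Type) (_ : Fintype ι) (κ : X → ι),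
      Fintype.card ι ≤ C * (n + 1) ∧
      ∀ x y, κ x = κ y → ∀ k < n, dist (T^[k] x) (T^[k] y) < ε) :
    coverEntropy T univ = 0 := by
  classical
  refine le_antisymm ?_ (coverEntropy_nonneg T univ_nonempty)
  refine iSup₂_le fun U hU => ?_
  obtain ⟨ε, hε, hεU⟩ := Metric.mem_uniformity_dist.1 hU
  obtain ⟨C, hC⟩ := h ε hε
  by_contra hcon
  push Not at hcon
  obtain ⟨a, ha0, ha⟩ := EReal.lt_iff_exists_real_btwn.1 hcon
  refine absurd ha (not_lt.2 ?_)
  have ha0' : 0 < a := by exact_mod_cast ha0
  refine Eventually.expGrowthSup_le ?_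
  obtain ⟨n₀, hn₀⟩ := exists_nat_gt (8 * (C : ℝ) / a ^ 2)
  filter_upwards [eventually_ge_atTop (max n₀ 1)] with n hn
  have hn1 : n₀ ≤ n := (le_max_left _ _).trans hn
  have hn2 : 1 ≤ n := (le_max_right _ _).trans hn
  -- the cover
  obtain ⟨ι, hι, κ, hcard, hκ⟩ := hC n
  have hcov : ∃ s : Finset X, IsDynCoverOf T univ U n (s : Set X) ∧ s.card ≤ C * (n + 1) := by
    let g : ι → X := fun i => if hi : ∃ x, κ x = i then hi.choose else Classical.arbitrary X
    refine ⟨Finset.univ.image g, ?_, (Finset.card_image_le.trans (by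
      rw [Finset.card_univ])).trans hcard⟩
    intro x _
    have hx : ∃ y, κ y = κ x := ⟨x, rfl⟩
    refine ⟨g (κ x), ?_, ?_⟩
    · rw [Finset.mem_coe, Finset.mem_image]
      exact ⟨κ x, Finset.mem_univ _, rfl⟩
    · have hg : κ (g (κ x)) = κ x := by
        simp only [g]
        rw [dif_pos hx]
        exact hx.choose_spec
      rw [Dynamics.mem_dynEntourage]
      intro k hk
      exact hεU (hκ _ _ hg.symm k hk)
  obtain ⟨s, hs, hscard⟩ := hcov
  have h1 : coverMincard T univ U n ≤ (s.card : ℕ∞) := hs.coverMincard_le_card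
  have h2 : coverMincard T univ U n ≤ ((C * (n + 1) : ℕ) : ℕ∞) :=
    h1.trans (by exact_mod_cast hscard)
  have h3 : EReal.exp ((a : EReal) * (n : EReal)) = ENNReal.ofReal (Real.exp (a * n)) := by
    have : ((a : EReal) * (n : EReal)) = ((a * (n : ℝ) : ℝ) : EReal) := by
      rw [EReal.coe_mul]; rfl
    rw [this, EReal.exp_coe]
  rw [h3]
  calc ((coverMincard T univ U n : ℕ∞) : ENNReal) ≤ (((C * (n + 1) : ℕ) : ℕ∞) : ENNReal) := by
        exact_mod_cast h2
    _ = ENNReal.ofReal ((C * (n + 1) : ℕ) : ℝ) := by rw [ENNReal.ofReal_natCast]; rfl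
    _ ≤ ENNReal.ofReal (Real.exp (a * n)) := by
        apply ENNReal.ofReal_le_ofReal
        have hnr : (1 : ℝ) ≤ n := by exact_mod_cast hn2
        have hn3 : 8 * (C : ℝ) / a ^ 2 < n := lt_of_lt_of_le hn₀ (by exact_mod_cast hn1)
        rw [div_lt_iff₀ (by positivity)] at hn3
        have h4 : a * n / 2 + 1 ≤ Real.exp (a * n / 2) := Real.add_one_le_exp _
        have h5 : Real.exp (a * n) = Real.exp (a * n / 2) * Real.exp (a * n / 2) := by
          rw [← Real.exp_add]; congr 1; ring
        rw [h5]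
        have h6 : 0 ≤ a * n / 2 := by positivity
        have h7 : (a * n / 2) * (a * n / 2) ≤ Real.exp (a * n / 2) * Real.exp (a * n / 2) :=
          mul_le_mul (by linarith) (by linarith) h6 (by positivity)
        refine le_trans ?_ h7
        push_cast
        have hC0 : (0 : ℝ) ≤ C := Nat.cast_nonneg _
        nlinarith

/-- positive entropy from a horseshoe for the second iterate -/
theorem entropy_pos {X : Type} [PseudoMetricSpace X] [Nonempty X] (T : X → X) (I : Bool → Set X)
    {δ : ℝ} (hδ : 0 < δ) (hI : ∀ x ∈ I false, ∀ y ∈ I true, 2 * δ ≤ dist x y)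
    (hne : (I true).Nonempty)
    (hcov : ∀ b c, ∀ y ∈ I c, ∃ x ∈ I b, T (T x) = y) :
    ((Real.log 2 / 2 : ℝ) : EReal) ≤ coverEntropy T univ := by
  classical
  set U : SetRel X X := {p | dist p.1 p.2 < δ} with hU
  have hUu : U ∈ 𝓤 X := Metric.dist_mem_uniformity hδ
  -- itineraries
  have hit : ∀ (N : ℕ) (w : ℕ → Bool), ∃ x ∈ I (w 0), ∀ k < N, T^[k * 2] x ∈ I (w k) := by
    intro N
    induction N with
    | zero =>
      intro w
      obtain ⟨y, hy⟩ := hne
      obtain ⟨x, hx, -⟩ := hcov (w 0) true y hy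
      exact ⟨x, hx, fun k hk => absurd hk (by omega)⟩
    | succ N ih =>
      intro w
      obtain ⟨y, hy, hy'⟩ := ih fun k => w (k + 1)
      obtain ⟨x, hx, hxy⟩ := hcov (w 0) _ y hy
      refine ⟨x, hx, fun k hk => ?_⟩
      rcases k with _ | k
      · simpa using hx
      · have : T^[(k + 1) * 2] x = T^[k * 2] y := by
          rw [show (k + 1) * 2 = k * 2 + 2 by ring, Function.iterate_add_apply]
          show T^[k * 2] (T (T x)) = _
          rw [hxy]
        rw [this]
        exact hy' k (by omega)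
  have key : ∀ N : ℕ, ((2 ^ N : ℕ) : ℕ∞) ≤ netMaxcard T univ U (N * 2) := by
    intro N
    have hex : ∀ v : Fin N → Bool, ∃ x, ∀ k : Fin N, T^[(k : ℕ) * 2] x ∈ I (v k) := by
      intro v
      obtain ⟨x, -, hx⟩ := hit N fun k => if hk : k < N then v ⟨k, hk⟩ else false
      refine ⟨x, fun k => ?_⟩
      have := hx k k.2
      rwa [dif_pos k.2] at this
    choose g hg using hex
    have hdist : ∀ b c, b ≠ c → ∀ x ∈ I b, ∀ y ∈ I c, 2 * δ ≤ dist x y := by
      intro b c hbc x hx y hy
      cases b <;> cases c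
      · exact absurd rfl hbc
      · exact hI x hx y hy
      · rw [dist_comm]; exact hI y hy x hx
      · exact absurd rfl hbc
    have hsep : ∀ v v' : Fin N → Bool, v ≠ v' → ∀ z : X,
        z ∈ UniformSpace.ball (g v) (dynEntourage T U (N * 2)) →
        z ∈ UniformSpace.ball (g v') (dynEntourage T U (N * 2)) → False := by
      intro v v' hvv z hz hz'
      obtain ⟨n, hn⟩ := Function.ne_iff.1 hvv
      rw [mem_ball_dynEntourage] at hz hz'
      have hnL : (n : ℕ) * 2 < N * 2 := Nat.mul_lt_mul_of_pos_right n.2 (by omega)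
      have e1 : dist (T^[(n : ℕ) * 2] (g v)) (T^[(n : ℕ) * 2] z) < δ := hz _ hnL
      have e2 : dist (T^[(n : ℕ) * 2] (g v')) (T^[(n : ℕ) * 2] z) < δ := hz' _ hnL
      have e3 := dist_triangle_right (T^[(n : ℕ) * 2] (g v)) (T^[(n : ℕ) * 2] (g v'))
        (T^[(n : ℕ) * 2] z)
      have e4 := hdist _ _ hn _ (hg v n) _ (hg v' n)
      linarith
    have hinj : Function.Injective g := by
      intro v v' h
      by_contra hvv
      have hrefl : ∀ y : X, y ∈ UniformSpace.ball y (dynEntourage T U (N * 2)) := by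
        intro y
        rw [mem_ball_dynEntourage]
        intro i _
        show dist _ _ < _
        rw [dist_self]; exact hδ
      exact hsep v v' hvv (g v) (hrefl _) (h ▸ hrefl _)
    have hcard : (Finset.univ.image g).card = 2 ^ N := by
      rw [Finset.card_image_of_injective _ hinj]
      simp
    have hnet : IsDynNetIn T univ U (N * 2) ((Finset.univ.image g : Finset X) : Set X) := by
      refine ⟨subset_univ _, ?_⟩
      rintro P hP P' hP' hne
      rw [Finset.mem_coe, Finset.mem_image] at hP hP'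
      obtain ⟨v, -, rfl⟩ := hP
      obtain ⟨v', -, rfl⟩ := hP'
      have hvv : v ≠ v' := fun h => hne (by rw [h])
      simp only [Function.onFun]
      rw [Set.disjoint_left]
      intro z hz hz'
      exact hsep v v' hvv z hz hz'
    rw [← hcard]
    exact hnet.card_le_netMaxcard
  have h1 : ((Real.log 2 / 2 : ℝ) : EReal) ≤ netEntropyEntourage T univ U := by
    unfold netEntropyEntourage
    refine Frequently.le_expGrowthSup ?_
    have htend : Tendsto (fun N : ℕ => N * 2) atTop atTop :=
      tendsto_atTop_mono (fun N => Nat.le_mul_of_pos_right N (by norm_num)) tendsto_id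
    refine htend.frequently (Frequently.of_forall fun N => ?_)
    have h2 : EReal.exp (((Real.log 2 / 2 : ℝ) : EReal) * ((N * 2 : ℕ) : EReal)) =
        ENNReal.ofReal ((2 : ℝ) ^ N) := by
      have : (((Real.log 2 / 2 : ℝ) : EReal) * ((N * 2 : ℕ) : EReal)) =
          ((Real.log 2 / 2 * ((N * 2 : ℕ) : ℝ) : ℝ) : EReal) := by
        rw [EReal.coe_mul]; rfl
      rw [this, EReal.exp_coe]
      congr 1
      have h3 : Real.log 2 / 2 * ((N * 2 : ℕ) : ℝ) = N * Real.log 2 := by
        push_cast; ring
      rw [h3, Real.exp_nat_mul, Real.exp_log (by norm_num)]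
    rw [h2]
    calc ENNReal.ofReal ((2 : ℝ) ^ N) = (((2 ^ N : ℕ) : ℕ∞) : ENNReal) := by
          have : ((2 : ℝ) ^ N) = ((2 ^ N : ℕ) : ℝ) := by push_cast; rfl
          rw [this, ENNReal.ofReal_natCast]; rfl
      _ ≤ _ := by exact_mod_cast key N
  exact h1.trans (netEntropyEntourage_le_coverEntropy (T := T) (F := univ) hUu)

end Pool.Agent.X194.LG
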